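import Mathlib

/-!
# Ring homs from a finite product of rings to a field
-/

namespace H300.HW

open Finset

variable {ι : Type*} [Fintype ι] (R : ι → Type*) [∀ i, CommRing (R i)] (k : Type*) [Field k]

/-- a point of one factor is a point of the product -/
def toPi : (Σ i, R i →+* k) → ((∀ i, R i) →+* k) := fun x => x.2.comp (Pi.evalRingHom R x.1)

omit [Fintype ι] in
lemma toPi_injective : Function.Injective (toPi R k) := by
  classical
  rintro ⟨i, f⟩ ⟨j, g⟩ h
  have hij : i = j := by
    by_contra hne
    have h1 := DFunLike.congr_fun h (Pi.single i 1)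
    simp only [toPi, RingHom.coe_comp, Function.comp_apply, Pi.evalRingHom_apply,
      Pi.single_eq_same, map_one] at h1
    rw [Pi.single_eq_of_ne (Ne.symm hne), map_zero] at h1
    exact one_ne_zero h1
  subst hij
  congr 1
  ext x
  have h1 := DFunLike.congr_fun h (Pi.single i x)
  simpa [toPi] using h1

lemma toPi_surjective : Function.Surjective (toPi R k) := by
  classical
  intro φ
  have h1 : ∑ i, φ (Pi.single i 1) = 1 := by
    rw [← map_sum, Finset.univ_sum_single (fun i => (1 : R i))]
    exact map_one φ
  have h2 : ∃ i, φ (Pi.single i 1) ≠ 0 := by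
    by_contra hcon
    push Not at hcon
    rw [Finset.sum_eq_zero (fun i _ => hcon i)] at h1
    exact zero_ne_one h1
  obtain ⟨i, hi⟩ := h2
  have h3 : φ (Pi.single i 1) = 1 := by
    have h4 : φ (Pi.single i 1) * φ (Pi.single i 1) = φ (Pi.single i 1) := by
      rw [← map_mul, ← Pi.single_mul, one_mul]
    exact mul_right_cancel₀ hi (by rw [h4, one_mul])
  let f : R i →+* k :=
    { toFun := fun x => φ (Pi.single i x)
      map_one' := h3
      map_mul' := fun x y => by rw [← map_mul, ← Pi.single_mul]
      map_zero' := by rw [Pi.single_zero, map_zero]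
      map_add' := fun x y => by rw [← map_add, ← Pi.single_add] }
  refine ⟨⟨i, f⟩, RingHom.ext (fun x => ?_)⟩
  change φ (Pi.single i (x i)) = φ x
  have h5 : (Pi.single i (x i) : ∀ i, R i) = Pi.single i 1 * x := by
    ext j
    by_cases hj : j = i
    · subst hj; simp
    · simp [hj]
  rw [h5, map_mul, h3, one_mul]

theorem card_pi [∀ i, Finite (R i →+* k)] :
    Nat.card ((∀ i, R i) →+* k) = ∑ i, Nat.card (R i →+* k) := by
  rw [← Nat.card_congr (Equiv.ofBijective _ ⟨toPi_injective R k, toPi_surjective R k⟩),
    Nat.card_sigma]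

end H300.HW
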