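import Pool.Agent.H300R2.HWPoints
import Pool.Agent.H300R2.HWProd

/-!
# The Euler product of point counts is a product of Dirichlet L-functions
-/

open NumberField IsCyclotomicExtension.Rat Complex

namespace H300.HW

instance (p : Nat.Primes) : Fact (Nat.Prime (p : ℕ)) := ⟨p.2⟩

/-- the zeta function of the fibre at `p` of `Spec A`, at `T = p^{-s}` -/
noncomputable def localZeta (A : Type) [CommRing A] (p : Nat.Primes) (s : ℂ) : ℂ :=
  Complex.exp (∑' r : ℕ, (Nat.card (A →+* GaloisField p (r + 1)) : ℂ) *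
    ((p : ℕ) : ℂ) ^ (-(((r + 1 : ℕ) : ℂ) * s)) / ((r + 1 : ℕ) : ℂ))

variable (n : ℕ) [NeZero n] (L : Type) [Field L] [NumberField L] [hL : IsCyclotomicExtension {n} ℚ L]

open Classical in
lemma term_eq (F : IntermediateField ℚ L) (p : Nat.Primes) (hp : ¬ (p : ℕ) ∣ n) (s : ℂ) (r : ℕ) :
    (Nat.card (𝓞 F →+* GaloisField p (r + 1)) : ℂ) *
      ((p : ℕ) : ℂ) ^ (-(((r + 1 : ℕ) : ℂ) * s)) / ((r + 1 : ℕ) : ℂ) =
    ∑ χ : YY n L F, ((χ : DirichletCharacter ℂ n) ((p : ℕ) : ZMod n) * ((p : ℕ) : ℂ) ^ (-s)) ^ (r + 1) /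
      ((r : ℂ) + 1) := by
  have hco : (Nat.card (GaloisField p (r + 1))).Coprime n := by
    rw [GaloisField.card p (r + 1) (Nat.succ_ne_zero r)]
    exact Nat.Coprime.pow_left _ ((Nat.Prime.coprime_iff_not_dvd p.2).mpr hp)
  rw [points_eq_sum n L F _ hco, Finset.sum_mul, Finset.sum_div]
  refine Finset.sum_congr rfl (fun χ _ => ?_)
  rw [GaloisField.card p (r + 1) (Nat.succ_ne_zero r), Nat.cast_pow, map_pow, mul_pow,
    ← Complex.cpow_nat_mul]
  push_cast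
  congr 3
  ring

omit [NeZero n] in
lemma norm_lt (χ : DirichletCharacter ℂ n) (p : Nat.Primes) {s : ℂ} (hs : 0 < s.re) :
    ‖χ ((p : ℕ) : ZMod n) * ((p : ℕ) : ℂ) ^ (-s)‖ < 1 := by
  rw [norm_mul, Complex.norm_natCast_cpow_of_pos p.2.pos]
  have h2 : ‖χ ((p : ℕ) : ZMod n)‖ ≤ 1 := DirichletCharacter.norm_le_one _ _
  have h3 : ((p : ℕ) : ℝ) ^ (-s).re < 1 := by
    rw [neg_re]
    exact Real.rpow_lt_one_of_one_lt_of_neg (by exact_mod_cast p.2.one_lt) (by linarith)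
  have h4 : 0 ≤ ((p : ℕ) : ℝ) ^ (-s).re := by positivity
  nlinarith

open Classical in
lemma hasSum_local (F : IntermediateField ℚ L) (p : Nat.Primes) (hp : ¬ (p : ℕ) ∣ n) {s : ℂ}
    (hs : 0 < s.re) : HasSum (fun r : ℕ => (Nat.card (𝓞 F →+* GaloisField p (r + 1)) : ℂ) *
      ((p : ℕ) : ℂ) ^ (-(((r + 1 : ℕ) : ℂ) * s)) / ((r + 1 : ℕ) : ℂ))
      (∑ χ : YY n L F, -log (1 - (χ : DirichletCharacter ℂ n) ((p : ℕ) : ZMod n) *
        ((p : ℕ) : ℂ) ^ (-s))) := by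
  have h1 : ∀ χ ∈ (Finset.univ : Finset (YY n L F)), HasSum (fun r : ℕ =>
      ((χ : DirichletCharacter ℂ n) ((p : ℕ) : ZMod n) * ((p : ℕ) : ℂ) ^ (-s)) ^ (r + 1) /
      ((r : ℂ) + 1)) (-log (1 - (χ : DirichletCharacter ℂ n) ((p : ℕ) : ZMod n) *
        ((p : ℕ) : ℂ) ^ (-s))) := fun χ _ => hasSum_taylorSeries_neg_log' (norm_lt n _ p hs)
  have h2 := hasSum_sum h1
  convert! h2 using 1
  ext r
  exact term_eq n L F p hp s r

open Classical in
lemma localZeta_pi {ι : Type} [Fintype ι] (F : ι → IntermediateField ℚ L) (p : Nat.Primes)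
    (hp : ¬ (p : ℕ) ∣ n) {s : ℂ} (hs : 0 < s.re) :
    (Summable fun r : ℕ => (Nat.card ((∀ j, 𝓞 (F j)) →+* GaloisField p (r + 1)) : ℂ) *
      ((p : ℕ) : ℂ) ^ (-(((r + 1 : ℕ) : ℂ) * s)) / ((r + 1 : ℕ) : ℂ)) ∧
    localZeta (∀ j, 𝓞 (F j)) p s =
      ∏ x : (Σ j, YY n L (F j)), (1 - (x.2 : DirichletCharacter ℂ n) ((p : ℕ) : ZMod n) *
        ((p : ℕ) : ℂ) ^ (-s))⁻¹ := by
  have h0 : ∀ r : ℕ, (Nat.card ((∀ j, 𝓞 (F j)) →+* GaloisField p (r + 1)) : ℂ) =
      ∑ j, (Nat.card (𝓞 (F j) →+* GaloisField p (r + 1)) : ℂ) := by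
    intro r
    have hco : (Nat.card (GaloisField p (r + 1))).Coprime n := by
      rw [GaloisField.card p (r + 1) (Nat.succ_ne_zero r)]
      exact Nat.Coprime.pow_left _ ((Nat.Prime.coprime_iff_not_dvd p.2).mpr hp)
    have : ∀ j, Finite (𝓞 (F j) →+* GaloisField p (r + 1)) := fun j =>
      finite_points n L (F j) _ hco
    rw [card_pi, Nat.cast_sum]
  have h1 : HasSum (fun r : ℕ => (Nat.card ((∀ j, 𝓞 (F j)) →+* GaloisField p (r + 1)) : ℂ) *
      ((p : ℕ) : ℂ) ^ (-(((r + 1 : ℕ) : ℂ) * s)) / ((r + 1 : ℕ) : ℂ))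
      (∑ j, ∑ χ : YY n L (F j), -log (1 - (χ : DirichletCharacter ℂ n) ((p : ℕ) : ZMod n) *
        ((p : ℕ) : ℂ) ^ (-s))) := by
    have h2 := hasSum_sum (fun j (_ : j ∈ (Finset.univ : Finset ι)) => hasSum_local n L (F j) p hp hs)
    convert! h2 using 1
    ext r
    rw [h0 r, Finset.sum_mul, Finset.sum_div]
  refine ⟨h1.summable, ?_⟩
  rw [localZeta, h1.tsum_eq, Complex.exp_sum, Fintype.prod_sigma]
  refine Finset.prod_congr rfl (fun j _ => ?_)
  rw [Complex.exp_sum]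
  refine Finset.prod_congr rfl (fun χ _ => ?_)
  rw [Complex.exp_neg, Complex.exp_log]
  intro h
  have h1 := norm_lt n (χ : DirichletCharacter ℂ n) p hs
  rw [sub_eq_zero] at h
  rw [← h] at h1
  simp at h1

/-- the product of the L-functions attached to the fields `F j` -/
noncomputable def LL {ι : Type} [Fintype ι] (F : ι → IntermediateField ℚ L) (s : ℂ) : ℂ := by
  classical
  exact ∏ x : (Σ j, YY n L (F j)), DirichletCharacter.LFunction (x.2 : DirichletCharacter ℂ n) s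

open Classical in
lemma hasProd_LL {ι : Type} [Fintype ι] (F : ι → IntermediateField ℚ L) {s : ℂ} (hs : 1 < s.re) :
    HasProd (fun p : Nat.Primes => if (p : ℕ) ∣ n then 1 else localZeta (∀ j, 𝓞 (F j)) p s)
      (LL n L F s) := by
  have h1 : ∀ x ∈ (Finset.univ : Finset (Σ j, YY n L (F j))), HasProd (fun p : Nat.Primes =>
      (1 - (x.2 : DirichletCharacter ℂ n) ((p : ℕ) : ZMod n) * ((p : ℕ) : ℂ) ^ (-s))⁻¹)
      (DirichletCharacter.LFunction (x.2 : DirichletCharacter ℂ n) s) := by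
    intro x _
    rw [DirichletCharacter.LFunction_eq_LSeries _ hs]
    exact DirichletCharacter.LSeries_eulerProduct_hasProd _ hs
  have h2 := hasProd_prod h1
  convert! h2 using 1
  ext p
  split_ifs with hp
  · symm
    refine Finset.prod_eq_one (fun x _ => ?_)
    have : (x.2 : DirichletCharacter ℂ n) ((p : ℕ) : ZMod n) = 0 := by
      apply MulChar.map_nonunit
      rw [ZMod.isUnit_iff_coprime]
      intro h
      rw [Nat.Coprime, Nat.gcd_eq_left hp] at h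
      exact p.2.one_lt.ne' h
    rw [this, zero_mul, sub_zero, inv_one]
  · exact (localZeta_pi n L F p hp (by linarith)).2

end H300.HW
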